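import Pool.Agent.Y6.F.Stm
import Pool.Agent.Y219.EM.DEC

/-!
Job EF-LIMR (project EF of helper6): limits of the solutions of the truncated systems along an
ultrafilter; the differential equation holds as long as the other modes are bounded by a summable
family (adapted from Pool/Agent/Y604/EM/LIM.lean).
-/

open Set Filter Topology MeasureTheory
open scoped ComplexConjugate

set_option autoImplicit false

namespace Pool.Agent.Y38.EF.LIMR

open Pool.Agent.Y6.M (Ker Dat TSol Kz qd)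

/-! ### Summability of the dominating function -/

lemma sum_fst {I : Type} {f : I → I → ℂ} {R : ℝ} {D : ℕ} (h0 : ∀ a b, ‖f a b‖ ≤ R)
    (hd : ∀ a, {b | f a b ≠ 0}.Finite ∧ {b | f a b ≠ 0}.ncard ≤ D) {w : I → ℝ}
    (hw : ∀ a, 0 ≤ w a) (hs : Summable w) :
    Summable (fun p : I × I => ‖f p.1 p.2‖ * w p.1) := by
  have hR : ∀ a : I, 0 ≤ R := fun a => (norm_nonneg _).trans (h0 a a)
  rw [summable_prod_of_nonneg (fun p => mul_nonneg (norm_nonneg _) (hw _))]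
  have key : ∀ a, ∀ b ∉ (hd a).1.toFinset, ‖f a b‖ * w a = 0 := by
    intro a b hb
    rw [Set.Finite.mem_toFinset] at hb
    have : f a b = 0 := by simpa using hb
    rw [this, norm_zero, zero_mul]
  refine ⟨fun a => summable_of_ne_finset_zero (s := (hd a).1.toFinset) (key a), ?_⟩
  refine Summable.of_nonneg_of_le (fun a => tsum_nonneg fun b => mul_nonneg (norm_nonneg _) (hw _))
    (fun a => ?_) (hs.mul_left (D * R))
  change ∑' b, ‖f a b‖ * w a ≤ _
  rw [tsum_eq_sum (s := (hd a).1.toFinset) (key a)]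
  have h1 : ∑ b ∈ (hd a).1.toFinset, ‖f a b‖ * w a ≤
      (hd a).1.toFinset.card • (R * w a) :=
    Finset.sum_le_card_nsmul _ _ _ fun b _ => mul_le_mul_of_nonneg_right (h0 a b) (hw a)
  refine h1.trans ?_
  rw [nsmul_eq_mul, mul_assoc]
  refine mul_le_mul_of_nonneg_right ?_ (mul_nonneg (hR a) (hw a))
  have h2 := (hd a).2
  rw [Set.ncard_eq_toFinset_card _ (hd a).1] at h2
  exact_mod_cast h2

lemma sum_snd {I : Type} {f : I → I → ℂ} {R : ℝ} {D : ℕ} (h0 : ∀ a b, ‖f a b‖ ≤ R)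
    (hd : ∀ b, {a | f a b ≠ 0}.Finite ∧ {a | f a b ≠ 0}.ncard ≤ D) {w : I → ℝ}
    (hw : ∀ a, 0 ≤ w a) (hs : Summable w) :
    Summable (fun p : I × I => ‖f p.1 p.2‖ * w p.2) := by
  have h := sum_fst (f := fun a b => f b a) (fun a b => h0 b a) hd hw hs
  rw [← (Equiv.prodComm I I).summable_iff] at h
  exact h

variable {I : Type} {lv : I → ℕ} {bar : I → I} {σ : I → ℝ}
  {c : I → I → I → ℂ} {β : I → ℝ} {S : ℕ → ℝ} {L : I → ℝ}

open Classical in
/-- weights of the other modes -/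
noncomputable def w2 (β : I → ℝ) (σ : I → ℝ) (a : I) : ℝ :=
  if σ a = 0 then 0 else β a

open Classical in
/-- indicator of the main modes -/
noncomputable def mn (σ : I → ℝ) (a : I) : ℝ := if σ a = 0 then 1 else 0

/-- the dominating function -/
noncomputable def dom (β : I → ℝ) (σ : I → ℝ) (c : I → I → I → ℂ) (i : I)
    (p : I × I) : ℝ :=
  ‖c i p.1 p.2‖ * (mn σ p.1 * mn σ p.2) + ‖c i p.1 p.2‖ * w2 β σ p.1 +
    ‖c i p.1 p.2‖ * w2 β σ p.2

lemma w2_nonneg (hβ : ∀ j, σ j ≠ 0 → 0 ≤ β j) (a : I) : 0 ≤ w2 β σ a := by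
  unfold w2
  split_ifs with h
  · exact le_rfl
  · exact hβ _ h

lemma mn_nonneg (a : I) : 0 ≤ mn σ a := by
  unfold mn
  split_ifs
  · exact zero_le_one
  · exact le_rfl

lemma w2_summable (hs : Summable (fun j => if σ j = 0 then 0 else β j)) :
    Summable (w2 β σ) := by
  refine hs.congr fun j => ?_
  unfold w2
  by_cases h : σ j = 0
  · simp [h]
  · simp [h]

lemma dom_summable (hK : Ker lv bar σ c) (hβ : ∀ j, σ j ≠ 0 → 0 ≤ β j)
    (hs : Summable (fun j => if σ j = 0 then 0 else β j)) (i : I) :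
    Summable (dom β σ c i) := by
  obtain ⟨R, hR⟩ := hK.bdd i
  obtain ⟨D, hD⟩ := hK.deg
  refine (Summable.add ?_ ?_).add ?_
  · refine summable_of_ne_finset_zero (s := (hK.mfin i).toFinset) ?_
    rintro ⟨a, b⟩ hab
    rw [Set.Finite.mem_toFinset, Set.mem_ofPred_eq] at hab
    by_cases ha : σ a = 0
    · by_cases hb : σ b = 0
      · have : c i a b = 0 := by
          by_contra hne
          exact hab ⟨ha, hb, hne⟩
        simp [this]
      · simp [mn, hb]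
    · simp [mn, ha]
  · exact sum_fst hR (fun a => ⟨(hD i a).1.1, (hD i a).1.2⟩) (w2_nonneg hβ) (w2_summable hs)
  · exact sum_snd hR (fun a => ⟨(hD i a).2.1, (hD i a).2.2⟩) (w2_nonneg hβ) (w2_summable hs)

/-- controlled vectors -/
def Ctl (β : I → ℝ) (σ : I → ℝ) (z : I → ℂ) : Prop :=
  (∀ a, ‖z a‖ ≤ 1) ∧ ∀ j, σ j ≠ 0 → ‖z j‖ ≤ β j

lemma Ctl.prod (hβ : ∀ j, σ j ≠ 0 → 0 ≤ β j) {x y : I → ℂ} (hx : Ctl β σ x) (hy : Ctl β σ y)
    (a b : I) : ‖x a‖ * ‖y b‖ ≤ mn σ a * mn σ b + w2 β σ a + w2 β σ b := by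
  have ha := hx.1 a
  have hb := hy.1 b
  have h0a := norm_nonneg (x a)
  have h0b := norm_nonneg (y b)
  by_cases hσa : σ a = 0
  · by_cases hσb : σ b = 0
    · unfold mn w2
      rw [if_pos hσa, if_pos hσb, if_pos hσa, if_pos hσb]
      nlinarith
    · have h1 := hy.2 b hσb
      have h2 : ‖x a‖ * ‖y b‖ ≤ β b := by nlinarith [hβ b]
      unfold mn w2
      rw [if_pos hσa, if_neg hσb, if_pos hσa, if_neg hσb]
      linarith
  · have h1 := hx.2 a hσa
    have h2 : ‖x a‖ * ‖y b‖ ≤ β a := by nlinarith [hβ a]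
    have h3 : 0 ≤ w2 β σ b := w2_nonneg hβ b
    have h4 : mn σ a = 0 := by unfold mn; rw [if_neg hσa]
    have h5 : w2 β σ a = β a := by unfold w2; rw [if_neg hσa]
    rw [h4, h5]
    linarith

lemma Ctl.term (hβ : ∀ j, σ j ≠ 0 → 0 ≤ β j) {x y : I → ℂ} (hx : Ctl β σ x) (hy : Ctl β σ y)
    (i : I) (p : I × I) : ‖c i p.1 p.2 * x p.1 * y p.2‖ ≤ dom β σ c i p := by
  rw [norm_mul, norm_mul, mul_assoc]
  have := mul_le_mul_of_nonneg_left (hx.prod hβ hy p.1 p.2) (norm_nonneg (c i p.1 p.2))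
  refine this.trans (le_of_eq ?_)
  unfold dom
  ring

lemma dom_nonneg (hβ : ∀ j, σ j ≠ 0 → 0 ≤ β j) (i : I) (p : I × I) : 0 ≤ dom β σ c i p := by
  unfold dom
  have h1 := w2_nonneg (σ := σ) hβ p.1
  have h2 := w2_nonneg (σ := σ) hβ p.2
  have h3 : (0 : ℝ) ≤ mn σ p.1 := mn_nonneg p.1
  have h4 : (0 : ℝ) ≤ mn σ p.2 := mn_nonneg p.2
  positivity

lemma Ctl.summable (hK : Ker lv bar σ c) (hβ : ∀ j, σ j ≠ 0 → 0 ≤ β j)
    (hs : Summable (fun j => if σ j = 0 then 0 else β j))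
    {x : I → ℂ} (hx : Ctl β σ x) (i : I) :
    Summable (fun p : I × I => c i p.1 p.2 * x p.1 * x p.2) :=
  Summable.of_norm_bounded (dom_summable hK hβ hs i) fun p => hx.term hβ hx i p

lemma Ctl.qd_le (hK : Ker lv bar σ c) (hβ : ∀ j, σ j ≠ 0 → 0 ≤ β j)
    (hs : Summable (fun j => if σ j = 0 then 0 else β j))
    {x : I → ℂ} (hx : Ctl β σ x) (i : I) : ‖qd c x i‖ ≤ ∑' p, dom β σ c i p := by
  have h := tsum_of_norm_bounded (dom_summable hK hβ hs i).hasSum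
    (f := fun p : I × I => c i p.1 p.2 * x p.1 * x p.2) fun p => hx.term hβ hx i p
  exact h

/-- the vector field -/
noncomputable def G (S : ℕ → ℝ) (lv : I → ℕ) (σ : I → ℝ)
    (c : I → I → I → ℂ) (z : I → ℂ) (i : I) : ℂ := Kz S lv σ z i + qd c z i

/-- the coefficient of the linear term -/
noncomputable def kc' (S : ℕ → ℝ) (lv : I → ℕ) (σ : I → ℝ) (i : I) : ℂ :=
  Complex.I * ((S (lv i) * σ i : ℝ) : ℂ)

lemma Kz_eq (z : I → ℂ) (i : I) : Kz S lv σ z i = kc' S lv σ i * z i := rfl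

/-- the modulus of continuity of the quadratic term -/
noncomputable def wq (L : I → ℝ) (β : I → ℝ) (σ : I → ℝ)
    (c : I → I → I → ℂ) (i : I) (δ : ℝ) : ℝ :=
  ∑' p : I × I, min (2 * dom β σ c i p)
    (‖c i p.1 p.2‖ * (L p.1 + L p.2) * δ)

lemma wq_summable (hK : Ker lv bar σ c) (hβ : ∀ j, σ j ≠ 0 → 0 ≤ β j)
    (hL : ∀ a, 0 ≤ L a)
    (hs : Summable (fun j => if σ j = 0 then 0 else β j))
    (i : I) {δ : ℝ} (hδ : 0 ≤ δ) : Summable (fun p : I × I => min (2 * dom β σ c i p)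
    (‖c i p.1 p.2‖ * (L p.1 + L p.2) * δ)) := by
  refine Summable.of_nonneg_of_le (fun p => ?_) (fun p => min_le_left _ _)
    ((dom_summable hK hβ hs i).mul_left 2)
  have h1 := dom_nonneg (c := c) (σ := σ) hβ i p
  have h2 := hL p.1
  have h3 := hL p.2
  exact le_min (by positivity) (by positivity)

lemma wq_mono (hK : Ker lv bar σ c) (hβ : ∀ j, σ j ≠ 0 → 0 ≤ β j)
    (hL : ∀ a, 0 ≤ L a)
    (hs : Summable (fun j => if σ j = 0 then 0 else β j))
    (i : I) {δ δ' : ℝ} (hδ : 0 ≤ δ) (h : δ ≤ δ') : wq L β σ c i δ ≤ wq L β σ c i δ' := by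
  refine Summable.tsum_le_tsum (fun p => ?_) (wq_summable hK hβ hL hs i hδ)
    (wq_summable hK hβ hL hs i (hδ.trans h))
  have h2 := hL p.1
  have h3 := hL p.2
  exact min_le_min le_rfl (mul_le_mul_of_nonneg_left h (by positivity))

lemma wq_tendsto (hK : Ker lv bar σ c) (hβ : ∀ j, σ j ≠ 0 → 0 ≤ β j)
    (hL : ∀ a, 0 ≤ L a)
    (hs : Summable (fun j => if σ j = 0 then 0 else β j))
    (i : I) : Tendsto (wq L β σ c i) (𝓝[≥] 0) (𝓝 0) := by
  have h := tendsto_tsum_of_dominated_convergence (𝓕 := 𝓝[≥] (0 : ℝ))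
    (f := fun (δ : ℝ) (p : I × I) => min (2 * dom β σ c i p)
      (‖c i p.1 p.2‖ * (L p.1 + L p.2) * δ))
    (g := fun _ => 0) (bound := fun p => 2 * dom β σ c i p)
    ((dom_summable hK hβ hs i).mul_left 2) ?_ ?_
  · rw [tsum_zero] at h
    exact h
  · intro p
    have h1 := dom_nonneg (c := c) (σ := σ) hβ i p
    have hc : Continuous (fun δ : ℝ => min (2 * dom β σ c i p)
      (‖c i p.1 p.2‖ * (L p.1 + L p.2) * δ)) := by fun_prop
    have h2 := (hc.tendsto 0).mono_left (nhdsWithin_le_nhds (s := Ici 0))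
    rw [mul_zero, min_eq_right (by positivity)] at h2
    exact h2
  · filter_upwards [self_mem_nhdsWithin] with δ hδ p
    have hδ' : 0 ≤ δ := hδ
    have h1 := dom_nonneg (c := c) (σ := σ) hβ i p
    have h2 := hL p.1
    have h3 := hL p.2
    rw [Real.norm_eq_abs, abs_of_nonneg (le_min (by positivity) (by positivity))]
    exact min_le_left _ _

lemma qd_diff (hK : Ker lv bar σ c) (hβ : ∀ j, σ j ≠ 0 → 0 ≤ β j)
    (hL : ∀ a, 0 ≤ L a)
    (hs : Summable (fun j => if σ j = 0 then 0 else β j))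
    {x y : I → ℂ} (hx : Ctl β σ x) (hy : Ctl β σ y) {δ : ℝ} (hδ : 0 ≤ δ)
    (hd : ∀ a, ‖x a - y a‖ ≤ L a * δ) (i : I) :
    ‖qd c x i - qd c y i‖ ≤ wq L β σ c i δ := by
  unfold qd
  rw [← (hx.summable hK hβ hs i).tsum_sub (hy.summable hK hβ hs i)]
  refine tsum_of_norm_bounded (f := fun p : I × I => c i p.1 p.2 * x p.1 * x p.2 -
    c i p.1 p.2 * y p.1 * y p.2) (wq_summable (L := L) hK hβ hL hs i hδ).hasSum fun p => ?_
  refine le_min ?_ ?_
  · refine (norm_sub_le _ _).trans ?_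
    have h1 := hx.term (c := c) hβ hx i p
    have h2 := hy.term (c := c) hβ hy i p
    linarith
  · have h1 : c i p.1 p.2 * x p.1 * x p.2 - c i p.1 p.2 * y p.1 * y p.2 =
        c i p.1 p.2 * ((x p.1 - y p.1) * x p.2 + y p.1 * (x p.2 - y p.2)) := by ring
    rw [h1, norm_mul, mul_assoc]
    refine mul_le_mul_of_nonneg_left ?_ (norm_nonneg _)
    refine (norm_add_le _ _).trans ?_
    rw [norm_mul, norm_mul, add_mul]
    have h2 := hd p.1
    have h3 := hd p.2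
    have h4 := hx.1 p.2
    have h5 := hy.1 p.1
    have h6 := norm_nonneg (x p.1 - y p.1)
    have h7 := norm_nonneg (x p.2 - y p.2)
    have h8 := norm_nonneg (x p.2)
    have h9 := norm_nonneg (y p.1)
    nlinarith

/-- the modulus of continuity of the vector field -/
noncomputable def wG (L : I → ℝ) (S : ℕ → ℝ) (β : I → ℝ) (lv : I → ℕ) (σ : I → ℝ)
    (c : I → I → I → ℂ) (i : I) (δ : ℝ) : ℝ :=
  ‖kc' S lv σ i‖ * (L i * δ) + wq L β σ c i δ

lemma wG_mono (hK : Ker lv bar σ c) (hβ : ∀ j, σ j ≠ 0 → 0 ≤ β j)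
    (hL : ∀ a, 0 ≤ L a)
    (hs : Summable (fun j => if σ j = 0 then 0 else β j))
    (i : I) {δ δ' : ℝ} (hδ : 0 ≤ δ) (h : δ ≤ δ') :
    wG L S β lv σ c i δ ≤ wG L S β lv σ c i δ' := by
  have h2 := hL i
  exact add_le_add (mul_le_mul_of_nonneg_left (mul_le_mul_of_nonneg_left h h2) (norm_nonneg _))
    (wq_mono hK hβ hL hs i hδ h)

lemma wG_tendsto (hK : Ker lv bar σ c) (hβ : ∀ j, σ j ≠ 0 → 0 ≤ β j)
    (hL : ∀ a, 0 ≤ L a)
    (hs : Summable (fun j => if σ j = 0 then 0 else β j))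
    (i : I) : Tendsto (wG L S β lv σ c i) (𝓝[≥] 0) (𝓝 0) := by
  have hc : Continuous (fun δ : ℝ => ‖kc' S lv σ i‖ * (L i * δ)) := by fun_prop
  have h2 := (hc.tendsto 0).mono_left (nhdsWithin_le_nhds (s := Ici 0))
  have h3 := h2.add (wq_tendsto (L := L) hK hβ hL hs i)
  rw [mul_zero, mul_zero, add_zero] at h3
  exact h3

lemma G_diff (hK : Ker lv bar σ c) (hβ : ∀ j, σ j ≠ 0 → 0 ≤ β j)
    (hL : ∀ a, 0 ≤ L a)
    (hs : Summable (fun j => if σ j = 0 then 0 else β j))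
    {x y : I → ℂ} (hx : Ctl β σ x) (hy : Ctl β σ y) {δ : ℝ} (hδ : 0 ≤ δ)
    (hd : ∀ a, ‖x a - y a‖ ≤ L a * δ) (i : I) :
    ‖G S lv σ c x i - G S lv σ c y i‖ ≤ wG L S β lv σ c i δ := by
  unfold G wG
  have h1 : Kz S lv σ x i + qd c x i - (Kz S lv σ y i + qd c y i) =
      kc' S lv σ i * (x i - y i) + (qd c x i - qd c y i) := by
    rw [Kz_eq, Kz_eq]
    ring
  rw [h1]
  refine (norm_add_le _ _).trans (add_le_add ?_ (qd_diff hK hβ hL hs hx hy hδ hd i))
  rw [norm_mul]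
  exact mul_le_mul_of_nonneg_left (hd _) (norm_nonneg _)

/-! ### The truncated solutions -/

lemma ts_sum (hK : Ker lv bar σ c) {v : I → ℂ} {N : ℕ} {z : I → ℝ → ℂ}
    (hz : TSol S lv bar σ c v N z) (t : ℝ) : Summable (fun a => ‖z a t‖ ^ 2) := by
  refine summable_of_ne_finset_zero (s := (hK.fin N).toFinset) ?_
  intro b hb
  rw [Set.Finite.mem_toFinset, Set.mem_ofPred_eq, not_le] at hb
  rw [hz.zero b hb t]
  simp

lemma ts_one (hK : Ker lv bar σ c) {v : I → ℂ} {N : ℕ} {z : I → ℝ → ℂ}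
    (hz : TSol S lv bar σ c v N z) {t : ℝ} (ht : t ∈ Icc (0 : ℝ) 60) (a : I) : ‖z a t‖ ≤ 1 := by
  have h1 : ‖z a t‖ ^ 2 ≤ ∑' a, ‖z a t‖ ^ 2 :=
    (ts_sum hK hz t).le_tsum a fun b _ => sq_nonneg _
  have h2 := hz.energy t ht
  have h3 : ‖z a t‖ ^ 2 ≤ 1 := h1.trans h2
  nlinarith [norm_nonneg (z a t)]

/-- Lipschitz constants of the modes -/
lemma lip_ex (hK : Ker lv bar σ c) (S : ℕ → ℝ) : ∃ L : I → ℝ, (∀ a, 0 ≤ L a) ∧
    ∀ (v : I → ℂ) (N : ℕ) (z : I → ℝ → ℂ), TSol S lv bar σ c v N z →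
      ∀ a, ∀ s ∈ Icc (0 : ℝ) 60, ∀ t ∈ Icc (0 : ℝ) 60, ‖z a t - z a s‖ ≤ L a * |t - s| := by
  choose Rf hRf using hK.bdd
  obtain ⟨D, hD⟩ := hK.deg
  have h0 : ∀ a, 0 ≤ ‖kc' S lv σ a‖ + 2 * |Rf a| * D := fun a => by positivity
  refine ⟨fun a => ‖kc' S lv σ a‖ + 2 * |Rf a| * D, h0, ?_⟩
  intro v N z hz a s hs t ht
  have hG : ∀ r ∈ Icc (0 : ℝ) 60, ‖G S lv σ c (fun b => z b r) a‖ ≤
      ‖kc' S lv σ a‖ + 2 * |Rf a| * D := by
    intro r hr
    unfold G
    refine (norm_add_le _ _).trans (add_le_add ?_ ?_)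
    · rw [Kz_eq, norm_mul]
      have h1 := ts_one hK hz hr a
      have h2 := norm_nonneg (kc' S lv σ a)
      nlinarith
    · exact (Pool.Agent.Y219.EM.DEC.absconv (c a) |Rf a| D (abs_nonneg _)
        (fun x y => (hRf a x y).trans (le_abs_self _)) (hD a) (fun b => z b r)
        (ts_sum hK hz r) (hz.energy r hr)).2
  by_cases ha : lv a ≤ N
  · exact (convex_Icc (0 : ℝ) 60).norm_image_sub_le_of_norm_hasDerivWithin_le
      (fun r hr => hz.deriv a ha r hr) hG hs ht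
  · rw [not_le] at ha
    rw [hz.zero a ha, hz.zero a ha, sub_zero, norm_zero]
    exact mul_nonneg (h0 a) (abs_nonneg _)

lemma ts_taylor (hK : Ker lv bar σ c) (hβ : ∀ j, σ j ≠ 0 → 0 ≤ β j) (hL : ∀ a, 0 ≤ L a)
    (hs : Summable (fun j => if σ j = 0 then 0 else β j)) {v : I → ℂ}
    {N : ℕ} {z : I → ℝ → ℂ} (hz : TSol S lv bar σ c v N z)
    (hlip : ∀ a, ∀ s ∈ Icc (0 : ℝ) 60, ∀ t ∈ Icc (0 : ℝ) 60, ‖z a t - z a s‖ ≤ L a * |t - s|)
    {θ : ℝ} (hθ : θ ≤ 60)
    (hb : ∀ j, σ j ≠ 0 → ∀ t ∈ Icc 0 θ, ‖z j t‖ ≤ β j) (i : I)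
    (hi : lv i ≤ N) {s t : ℝ} (hs' : s ∈ Icc 0 θ) (ht : t ∈ Icc 0 θ) :
    ‖z i t - z i s - (t - s) • G S lv σ c (fun a => z a s) i‖
      ≤ wG L S β lv σ c i |t - s| * |t - s| := by
  have hsub : uIcc s t ⊆ Icc 0 θ := uIcc_subset_Icc hs' ht
  have hsub' : Icc 0 θ ⊆ Icc (0 : ℝ) 60 := Icc_subset_Icc le_rfl hθ
  have hctl : ∀ r ∈ Icc 0 θ, Ctl β σ (fun a => z a r) := fun r hr =>
    ⟨fun a => ts_one hK hz (hsub' hr) a, fun j hj => hb j hj r hr⟩
  set g := G S lv σ c (fun a => z a s) i with hg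
  have h1 : ∀ r ∈ uIcc s t, HasDerivWithinAt (fun r : ℝ => z i r - r • g)
      (G S lv σ c (fun a => z a r) i - (1 : ℝ) • g) (uIcc s t) r := by
    intro r hr
    exact ((hz.deriv i hi r (hsub' (hsub hr))).mono (hsub.trans hsub')).sub
      ((hasDerivWithinAt_id r _).smul_const g)
  have h2 : ∀ r ∈ uIcc s t, ‖G S lv σ c (fun a => z a r) i - (1 : ℝ) • g‖ ≤
      wG L S β lv σ c i |t - s| := by
    intro r hr
    rw [one_smul]
    refine (G_diff hK hβ hL hs (hctl r (hsub hr)) (hctl s hs')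
      (abs_nonneg (r - s)) (fun a => hlip a s (hsub' hs') r (hsub' (hsub hr))) i).trans ?_
    exact wG_mono hK hβ hL hs i (abs_nonneg _) (abs_sub_left_of_mem_uIcc hr)
  have h3 := (convex_uIcc s t).norm_image_sub_le_of_norm_hasDerivWithin_le h1 h2
    left_mem_uIcc right_mem_uIcc
  have h4 : z i t - t • g - (z i s - s • g) = z i t - z i s - (t - s) • g := by
    rw [sub_smul]
    ring
  rw [h4] at h3
  exact h3

/-! ### The limit -/

theorem t_LIMR : Pool.Agent.Y6.F.S_LIMR := by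
  intro I lv bar σ c S v hK hv Z hZ U hU
  obtain ⟨L, hL, hlip⟩ := lip_ex hK S
  have hone : ∀ N, ∀ t ∈ Icc (0 : ℝ) 60, ∀ a, ‖Z N a t‖ ≤ 1 := fun N t ht a =>
    ts_one hK (hZ N) ht a
  have hex : ∀ i : I, ∀ t : ℝ, ∃ x : ℂ, t ∈ Icc (0 : ℝ) 60 →
      Tendsto (fun N => Z N i t) U (𝓝 x) := by
    intro i t
    by_cases ht : t ∈ Icc (0 : ℝ) 60
    · have hc : IsCompact (Metric.closedBall (0 : ℂ) 1) := isCompact_closedBall _ _
      have hm : (U.map (fun N => Z N i t) : Filter ℂ) ≤ 𝓟 (Metric.closedBall (0 : ℂ) 1) := by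
        rw [le_principal_iff]
        exact Filter.mem_map.2 (Filter.univ_mem' fun N =>
          mem_closedBall_zero_iff.2 (hone N t ht i))
      obtain ⟨x, _, hx⟩ := hc.ultrafilter_le_nhds (U.map (fun N => Z N i t)) hm
      exact ⟨x, fun _ => hx⟩
    · exact ⟨0, fun h => absurd h ht⟩
  choose z hz using hex
  have hlim : ∀ i, ∀ t ∈ Icc (0 : ℝ) 60, Tendsto (fun N => Z N i t) U (𝓝 (z i t)) :=
    fun i t ht => hz i t ht
  have hge : ∀ i, ∀ᶠ N in (U : Filter ℕ), lv i ≤ N := fun i => hU (eventually_ge_atTop _)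
  have h0 : (0 : ℝ) ∈ Icc (0 : ℝ) 60 := ⟨le_rfl, by norm_num⟩
  refine ⟨z, hlim, ?_, ?_, ?_, ?_, ?_⟩
  · intro i t ht
    have h1 := (Complex.continuous_conj.tendsto (z i t)).comp (hlim i t ht)
    exact tendsto_nhds_unique (hlim (bar i) t ht) (h1.congr fun N => ((hZ N).real i t ht).symm)
  · intro i
    refine tendsto_nhds_unique (hlim i 0 h0) (tendsto_const_nhds.congr' ?_)
    filter_upwards [hge i] with N hN
    exact ((hZ N).init i hN).symm
  · intro t ht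
    have h1 : ∀ F : Finset I, ∑ a ∈ F, ‖z a t‖ ^ 2 ≤ 1 := by
      intro F
      have h2 : Tendsto (fun N => ∑ a ∈ F, ‖Z N a t‖ ^ 2) U (𝓝 (∑ a ∈ F, ‖z a t‖ ^ 2)) :=
        tendsto_finsetSum _ fun a _ => (hlim a t ht).norm.pow 2
      refine le_of_tendsto h2 (Eventually.of_forall fun N => ?_)
      exact ((ts_sum hK (hZ N) t).sum_le_tsum F fun a _ => sq_nonneg _).trans
        ((hZ N).energy t ht)
    exact ⟨summable_of_sum_le (fun a => sq_nonneg _) h1,
      Real.tsum_le_of_sum_le (fun a => sq_nonneg _) h1⟩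
  · intro i
    exact ⟨L i, Eventually.of_forall fun N s hs t ht => hlip v N (Z N) (hZ N) i t ht s hs⟩
  · intro θ hθ β hs hb i
    have hsub : Icc 0 θ ⊆ Icc (0 : ℝ) 60 := Icc_subset_Icc le_rfl hθ.2
    have hβ : ∀ j, σ j ≠ 0 → 0 ≤ β j := by
      intro j hj
      obtain ⟨N, hN⟩ := hb.exists
      exact (norm_nonneg _).trans (hN j hj 0 ⟨le_rfl, hθ.1⟩)
    have hs' : Summable (fun j => if σ j = 0 then 0 else β j) := hs
    have hctl : ∀ᶠ N in (U : Filter ℕ), ∀ t ∈ Icc 0 θ, Ctl β σ (fun a => Z N a t) := by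
      filter_upwards [hb] with N hN t ht
      exact ⟨fun a => hone N t (hsub ht) a, fun j hj => hN j hj t ht⟩
    have hq : ∀ i, ∀ t ∈ Icc 0 θ,
        Tendsto (fun N => G S lv σ c (fun a => Z N a t) i) U
          (𝓝 (G S lv σ c (fun a => z a t) i)) := by
      intro i t ht
      unfold G
      refine Tendsto.add ?_ ?_
      · simp_rw [Kz_eq]
        exact (hlim _ t (hsub ht)).const_mul _
      · unfold qd
        refine tendsto_tsum_of_dominated_convergence (dom_summable hK hβ hs' i) ?_ ?_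
        · intro p
          exact ((hlim p.1 t (hsub ht)).const_mul _).mul (hlim p.2 t (hsub ht))
        · filter_upwards [hctl] with N hN p
          exact (hN t ht).term hβ (hN t ht) i p
    have htay : ∀ s ∈ Icc 0 θ, ∀ t ∈ Icc 0 θ,
        ‖z i t - z i s - (t - s) • G S lv σ c (fun a => z a s) i‖
          ≤ wG L S β lv σ c i |t - s| * |t - s| := by
      intro s hs'' t ht
      have h1 : Tendsto (fun N => ‖Z N i t - Z N i s -
          (t - s) • G S lv σ c (fun a => Z N a s) i‖)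
          U (𝓝 ‖z i t - z i s - (t - s) • G S lv σ c (fun a => z a s) i‖) :=
        (((hlim i t (hsub ht)).sub (hlim i s (hsub hs''))).sub
          ((hq i s hs'').const_smul _)).norm
      refine le_of_tendsto h1 ?_
      filter_upwards [hge i, hb] with N hN hN'
      exact ts_taylor hK hβ hL hs' (hZ N) (hlip v N (Z N) (hZ N)) hθ.2 hN' i hN hs'' ht
    intro s hs''
    change HasDerivWithinAt (z i) (G S lv σ c (fun a => z a s) i) (Icc 0 θ) s
    rw [hasDerivWithinAt_iff_isLittleO, Asymptotics.isLittleO_iff]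
    intro ε hε
    have hw := wG_tendsto (L := L) (S := S) hK hβ hL hs' i
    have h1 : ∀ᶠ δ in 𝓝[≥] (0 : ℝ), wG L S β lv σ c i δ < ε := hw.eventually_lt_const hε
    have h2 : Tendsto (fun t : ℝ => |t - s|) (𝓝[Icc 0 θ] s) (𝓝[≥] 0) := by
      refine tendsto_nhdsWithin_iff.2 ⟨?_, Eventually.of_forall fun t =>
        Set.mem_Ici.2 (abs_nonneg _)⟩
      have hc : Continuous (fun t : ℝ => |t - s|) := by fun_prop
      have := hc.tendsto s
      rw [sub_self, abs_zero] at this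
      exact this.mono_left nhdsWithin_le_nhds
    filter_upwards [h2.eventually h1, self_mem_nhdsWithin] with t ht ht'
    rw [Real.norm_eq_abs]
    exact (htay s hs'' t ht').trans (mul_le_mul_of_nonneg_right ht.le (abs_nonneg _))

end Pool.Agent.Y38.EF.LIMR
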